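import Pool.Agent.Work.MP_54ef3e_nt.Fr.Final

/-!
# Freiman's `3k-4` theorem modulo a prime, full range, for sets of density below `1/35`

The definitions render the problem file: arithmetic progressions of `Z/pZ` of length `L`
(`d ≠ 0`, `1 ≤ L ≤ p`), and `ℓ(S)`, the smallest length of an arithmetic progression containing `S`.
-/

set_option autoImplicit false

open scoped Pointwise

namespace Pool.Agent.Results.MP_54ef3e_nt.FullRange

/-- `T` is an arithmetic progression of length `L` in `Z/pZ`: a set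
`{a, a + d, ..., a + (L - 1) d}` with `a`, `d` in `Z/pZ`, `d ≠ 0` and `1 ≤ L ≤ p`. -/
def IsProgression {p : ℕ} (T : Set (ZMod p)) (L : ℕ) : Prop :=
  1 ≤ L ∧ L ≤ p ∧ ∃ a d : ZMod p, d ≠ 0 ∧ T = {x | ∃ i : ℕ, i < L ∧ x = a + (i : ZMod p) * d}

/-- `ℓ(S)`: the smallest length of an arithmetic progression containing `S`. -/
noncomputable def ell {p : ℕ} (S : Set (ZMod p)) : ℕ :=
  sInf {L : ℕ | ∃ T : Set (ZMod p), IsProgression T L ∧ S ⊆ T}

/-- All of `Z/pZ` is an arithmetic progression of length `p`. -/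
theorem isProgression_univ {p : ℕ} (hp : p.Prime) :
    IsProgression (Set.univ : Set (ZMod p)) p := by
  have : Fact p.Prime := ⟨hp⟩
  refine ⟨hp.one_lt.le, le_rfl, 0, 1, one_ne_zero, ?_⟩
  ext x
  refine ⟨fun _ => ⟨x.val, x.val_lt, by simp⟩, fun _ => Set.mem_univ x⟩

/-- The minimum in the definition of `ell` is attained. -/
theorem ell_spec {p : ℕ} (hp : p.Prime) (S : Set (ZMod p)) :
    ∃ T : Set (ZMod p), IsProgression T (ell S) ∧ S ⊆ T := by
  have h : {L : ℕ | ∃ T : Set (ZMod p), IsProgression T L ∧ S ⊆ T}.Nonempty :=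
    ⟨p, Set.univ, isProgression_univ hp, Set.subset_univ S⟩
  exact Nat.sInf_mem h

/-- For every prime `p` and every `S ⊆ Z/pZ` with `|S| < p/35`: if `|S + S| = 2|S| + m` with
`m ≤ |S| - 4`, then `S` lies in an arithmetic progression of length exactly `|S| + m + 1`, so
`ℓ(S) ≤ |S| + m + 1`; and `ℓ(S)` is the length of an arithmetic progression containing `S`. -/
theorem result :
    ∀ p : ℕ, p.Prime → ∀ S : Set (ZMod p), (S.ncard : ℝ) < (p : ℝ) / 35 →
      ∀ m : ℤ, ((S + S).ncard : ℤ) = 2 * (S.ncard : ℤ) + m → m ≤ (S.ncard : ℤ) - 4 →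
        (ell S : ℤ) ≤ (S.ncard : ℤ) + m + 1 ∧
        (∃ T : Set (ZMod p), IsProgression T (ell S) ∧ S ⊆ T) ∧
        ∃ (L : ℕ) (T : Set (ZMod p)), (L : ℤ) = (S.ncard : ℤ) + m + 1 ∧
          IsProgression T L ∧ S ⊆ T := by
  intro p hp S hsm m hm hm4
  have hfact : Fact p.Prime := ⟨hp⟩
  classical
  -- pass to a finset
  set F : Finset (ZMod p) := (Set.toFinite S).toFinset with hF
  have hFS : (F : Set (ZMod p)) = S := (Set.toFinite S).coe_toFinset
  have hc : S.ncard = F.card := by rw [← hFS, Set.ncard_coe_finset]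
  have hc2 : (S + S).ncard = (F + F).card := by
    rw [← hFS, ← Finset.coe_add, Set.ncard_coe_finset]
  rw [hc] at hsm hm hm4
  rw [hc2] at hm
  have h35 : 35 * F.card < p := by
    have h : (35 : ℝ) * (F.card : ℝ) < (p : ℝ) := by linarith
    exact_mod_cast h
  have h4 : (F + F).card + 4 ≤ 3 * F.card := by omega
  have hne : F.Nonempty := by
    rw [← Finset.card_pos]
    omega
  have hcd := ZMod.cauchy_davenport hp hne hne
  have h3 : 3 ≤ F.card := by omega
  obtain ⟨a, d, hsub⟩ := Pool.Agent.Fr.main p hp F h35 (by convert h4)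
  set L : ℕ := (F + F).card + 1 - F.card with hL
  have hLp : L ≤ p := by omega
  have hL1 : 1 ≤ L := by omega
  have hsub' : ∀ x ∈ F, ∃ i : ℕ, i < L ∧ x = a + (i : ZMod p) * d := by
    intro x hx
    obtain ⟨i, hi, e⟩ := Finset.mem_image.mp (hsub hx)
    refine ⟨i, ?_, e.symm⟩
    have := Finset.mem_range.mp hi
    convert this using 2
  have hd : d ≠ 0 := by
    rintro rfl
    have hsub2 : F ⊆ {a} := by
      intro x hx
      obtain ⟨i, -, e⟩ := hsub' x hx
      simp [e]
    have := Finset.card_le_card hsub2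
    simp at this
    omega
  have hT : IsProgression {x : ZMod p | ∃ i : ℕ, i < L ∧ x = a + (i : ZMod p) * d} L :=
    ⟨hL1, hLp, a, d, hd, rfl⟩
  have hST : S ⊆ {x : ZMod p | ∃ i : ℕ, i < L ∧ x = a + (i : ZMod p) * d} := by
    intro x hx
    exact hsub' x (by rw [← hFS] at hx; exact_mod_cast hx)
  have hLm : (L : ℤ) = (S.ncard : ℤ) + m + 1 := by
    rw [hc]
    omega
  have hell : ell S ≤ L := Nat.sInf_le ⟨_, hT, hST⟩
  refine ⟨?_, ell_spec hp S, L, _, hLm, hT, hST⟩
  rw [← hLm]
  exact_mod_cast hell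

end Pool.Agent.Results.MP_54ef3e_nt.FullRange
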